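import Mathlib
import Pool.Agent.Lib.Brouwer.Basic

-- part Pool.Agent.P.MP_438bde_an.Decomp
section

/-!
Decomposition lemma: for a maximal monotone T on a reflexive space, every z is x + n with
y in T x, the norm of y at most C and y n = C times the norm of n.
-/

open Filter Topology Metric Set

namespace Pool.Agent.P.MP_438bde_an

theorem real_minimax {E F : Type*} [TopologicalSpace E] [AddCommGroup E] [Module ℝ E]
    [IsTopologicalAddGroup E] [ContinuousSMul ℝ E]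
    [TopologicalSpace F] [AddCommGroup F] [Module ℝ F]
    [IsTopologicalAddGroup F] [ContinuousSMul ℝ F]
    (K : Set E) (Y : Set F) (f : E → F → ℝ) (hne : K.Nonempty) (cK : Convex ℝ K)
    (kK : IsCompact K) (cY : Convex ℝ Y)
    (h1 : ∀ y, Continuous fun x => f x y) (h2 : ∀ x, Continuous fun y => f x y)
    (h3 : ∀ y, ConvexOn ℝ K fun x => f x y) (h4 : ∀ x, ConcaveOn ℝ Y fun y => f x y)
    (h : ∀ y ∈ Y, ∃ x ∈ K, f x y ≤ 0) : ∃ x ∈ K, ∀ y ∈ Y, f x y ≤ 0 := by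
  let g : E → F → EReal := fun x y => ((f x y : ℝ) : EReal)
  have hfy : ∀ y ∈ Y, LowerSemicontinuousOn (fun x : E => g x y) K := fun y _ =>
    (continuous_coe_real_ereal.comp (h1 y)).continuousOn.lowerSemicontinuousOn
  have hfx : ∀ x ∈ K, UpperSemicontinuousOn (fun y : F => g x y) Y := fun x _ =>
    (continuous_coe_real_ereal.comp (h2 x)).continuousOn.upperSemicontinuousOn
  have hfy' : ∀ y ∈ Y, QuasiconvexOn ℝ K fun x => g x y := fun y _ =>
    QuasiconvexOn.monotone_comp (g := Real.toEReal) EReal.coe_strictMono.monotone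
      (h3 y).quasiconvexOn
  have hfx' : ∀ x ∈ K, QuasiconcaveOn ℝ Y fun y => g x y := fun x _ =>
    QuasiconcaveOn.monotone_comp (g := Real.toEReal) EReal.coe_strictMono.monotone
      (h4 x).quasiconcaveOn
  have hmm := Sion.minimax' hne cK kK hfy hfy' cY hfx hfx'
  have hle : (⨆ y ∈ Y, ⨅ x ∈ K, g x y) ≤ 0 := by
    refine iSup₂_le fun y hy => ?_
    obtain ⟨x, hx, hxy⟩ := h y hy
    refine (iInf₂_le x hx).trans ?_
    simp only [g]
    exact_mod_cast hxy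
  have hlsc : LowerSemicontinuousOn (fun x => ⨆ y ∈ Y, g x y) K := fun x hx => by
    apply lowerSemicontinuousWithinAt_iSup
    intro i
    exact lowerSemicontinuousWithinAt_iSup fun hi => hfy i hi x hx
  obtain ⟨a, ha, ha'⟩ := LowerSemicontinuousOn.exists_isMinOn hne kK hlsc
  refine ⟨a, ha, fun y hy => ?_⟩
  have e1 : g a y ≤ ⨆ y ∈ Y, g a y := le_iSup₂ (f := fun y (_ : y ∈ Y) => g a y) y hy
  have e2 : (⨆ y ∈ Y, g a y) ≤ ⨅ x ∈ K, ⨆ y ∈ Y, g x y := le_iInf₂ ha'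
  have e3 : g a y ≤ 0 := e1.trans (e2.trans (hmm ▸ hle))
  simp only [g] at e3
  exact_mod_cast e3

variable {X : Type*} [NormedAddCommGroup X] [NormedSpace ℝ X]

theorem apply_le_norm_mul (f : X →L[ℝ] ℝ) (x : X) : f x ≤ ‖f‖ * ‖x‖ :=
  (le_abs_self _).trans (by simpa using f.le_opNorm x)

theorem neg_norm_mul_le_apply (f : X →L[ℝ] ℝ) (x : X) : -(‖f‖ * ‖x‖) ≤ f x := by
  have := apply_le_norm_mul f (-x)
  rw [map_neg, norm_neg] at this
  linarith

theorem weak_ball_mem {Y : Type*} [NormedAddCommGroup Y] [NormedSpace ℝ Y]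
    (c : Y →L[ℝ] ℝ) (r : ℝ) (w : WeakDual ℝ Y) :
    w ∈ (WeakDual.toStrongDual ⁻¹' closedBall c r : Set (WeakDual ℝ Y)) ↔
      ‖WeakDual.toStrongDual w - c‖ ≤ r := by
  rw [mem_preimage, mem_closedBall, dist_eq_norm]

theorem weak_ball_convex {Y : Type*} [NormedAddCommGroup Y] [NormedSpace ℝ Y]
    (c : Y →L[ℝ] ℝ) (r : ℝ) :
    Convex ℝ (WeakDual.toStrongDual ⁻¹' closedBall c r : Set (WeakDual ℝ Y)) :=
  (convex_closedBall c r).linear_preimage
    (WeakDual.toStrongDual (𝕜 := ℝ) (E := Y)).toLinearMap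

theorem weak_minimax {A B : Type*} [NormedAddCommGroup A] [NormedSpace ℝ A]
    [NormedAddCommGroup B] [NormedSpace ℝ B] {F : Type*} [NormedAddCommGroup F] [NormedSpace ℝ F]
    (c : A →L[ℝ] ℝ) (r s : ℝ) (hr : 0 ≤ r) (hs : 0 ≤ s) (Y : Set F) (cY : Convex ℝ Y)
    (α : F →L[ℝ] A) (β : F →L[ℝ] B) (z : B) (γ : F →L[ℝ] ℝ)
    (h : ∀ y ∈ Y, ∃ (φ : A →L[ℝ] ℝ) (v : B →L[ℝ] ℝ), ‖φ - c‖ ≤ r ∧ ‖v‖ ≤ s ∧
      φ (α y) + v (β y - z) + γ y ≤ 0) :
    ∃ (φ : A →L[ℝ] ℝ) (v : B →L[ℝ] ℝ), ‖φ - c‖ ≤ r ∧ ‖v‖ ≤ s ∧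
      ∀ y ∈ Y, φ (α y) + v (β y - z) + γ y ≤ 0 := by
  let K1 : Set (WeakDual ℝ A) := WeakDual.toStrongDual ⁻¹' closedBall c r
  let K2 : Set (WeakDual ℝ B) := WeakDual.toStrongDual ⁻¹' closedBall 0 s
  let f : WeakDual ℝ A × WeakDual ℝ B → F → ℝ :=
    fun q y => q.1 (α y) + q.2 (β y - z) + γ y
  have hne : (K1 ×ˢ K2).Nonempty :=
    ⟨(StrongDual.toWeakDual c, StrongDual.toWeakDual 0),
      (weak_ball_mem c r _).mpr (by simpa using hr), (weak_ball_mem 0 s _).mpr (by simpa using hs)⟩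
  have cK : Convex ℝ (K1 ×ˢ K2) := (weak_ball_convex c r).prod (weak_ball_convex 0 s)
  have kK : IsCompact (K1 ×ˢ K2) :=
    (WeakDual.isCompact_closedBall c r).prod (WeakDual.isCompact_closedBall 0 s)
  have h1 : ∀ y, Continuous fun x => f x y := fun y =>
    (((WeakDual.eval_continuous _).comp continuous_fst).add
      ((WeakDual.eval_continuous _).comp continuous_snd)).add continuous_const
  have h2 : ∀ x, Continuous fun y => f x y := by
    intro q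
    have c1 : Continuous fun g : A => q.1 g := (WeakDual.toStrongDual q.1).continuous
    have c2 : Continuous fun g : B => q.2 g := (WeakDual.toStrongDual q.2).continuous
    exact ((c1.comp α.continuous).add (c2.comp (β.continuous.sub continuous_const))).add
      γ.continuous
  have h3 : ∀ y, ConvexOn ℝ (K1 ×ˢ K2) fun x => f x y := by
    intro y
    refine ⟨cK, ?_⟩
    intro q _ q' _ s t _ _ hst
    have e1 : (s • q + t • q').1 (α y) = s * q.1 (α y) + t * q'.1 (α y) := rfl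
    have e2 : (s • q + t • q').2 (β y - z) = s * q.2 (β y - z) + t * q'.2 (β y - z) := rfl
    simp only [f, smul_eq_mul]
    rw [e1, e2]
    have : t = 1 - s := by linarith
    subst this
    apply le_of_eq
    ring
  have h4 : ∀ x, ConcaveOn ℝ Y fun y => f x y := by
    intro q
    refine ⟨cY, ?_⟩
    intro p _ p' _ s t _ _ hst
    have : t = 1 - s := by linarith
    subst this
    simp only [f, map_add, map_smul, map_sub, smul_eq_mul]
    apply le_of_eq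
    ring
  have h5 : ∀ y ∈ Y, ∃ x ∈ K1 ×ˢ K2, f x y ≤ 0 := by
    intro y hy
    obtain ⟨φ, v, hφ, hv, hle⟩ := h y hy
    exact ⟨(StrongDual.toWeakDual φ, StrongDual.toWeakDual v),
      ⟨(weak_ball_mem c r _).mpr hφ, (weak_ball_mem 0 s _).mpr (by simpa using hv)⟩, hle⟩
  obtain ⟨q, hq, hqY⟩ := real_minimax (K1 ×ˢ K2) Y f hne cK kK cY h1 h2 h3 h4 h5
  exact ⟨WeakDual.toStrongDual q.1, WeakDual.toStrongDual q.2, (weak_ball_mem c r _).mp hq.1,
    by simpa using (weak_ball_mem 0 s _).mp hq.2, hqY⟩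

theorem fitz_ge (T : X → Set (X →L[ℝ] ℝ))
    (hmax : ∀ (x : X) (f : X →L[ℝ] ℝ),
      (∀ y : X, ∀ g ∈ T y, 0 ≤ (f - g) (x - y)) → f ∈ T x)
    (a : X) (b : X →L[ℝ] ℝ) (t : ℝ)
    (hab : ∀ a' : X, ∀ b' ∈ T a', b' a + b a' - b' a' ≤ t) : b a ≤ t := by
  by_contra hlt
  push Not at hlt
  have hpos : ∀ a' : X, ∀ b' ∈ T a', 0 < (b - b') (a - a') := by
    intro a' b' hb'
    have := hab a' b' hb'
    simp only [sub_apply, map_sub]
    linarith
  have := hpos a b (hmax a b fun a' b' hb' => (hpos a' b' hb').le)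
  simp at this

theorem exists_decomp
    (hrefl : ∀ φ : (X →L[ℝ] ℝ) →L[ℝ] ℝ, ∃ x : X, ∀ f : X →L[ℝ] ℝ, φ f = f x)
    (T : X → Set (X →L[ℝ] ℝ))
    (hmon : ∀ x y : X, ∀ f ∈ T x, ∀ g ∈ T y, 0 ≤ (f - g) (x - y))
    (hmax : ∀ (x : X) (f : X →L[ℝ] ℝ),
      (∀ y : X, ∀ g ∈ T y, 0 ≤ (f - g) (x - y)) → f ∈ T x)
    (x0 : X) (y0 : X →L[ℝ] ℝ) (h0 : y0 ∈ T x0) (C : ℝ) (hC : 3 * ‖y0‖ ≤ C) (z : X) :
    ∃ x : X, ∃ y ∈ T x, ‖y‖ ≤ C ∧ y (z - x) = C * ‖z - x‖ ∧ ‖z - x‖ ≤ 2 * ‖z - x0‖ := by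
  have hC0 : 0 ≤ C := le_trans (by positivity) hC
  let ι : X →L[ℝ] ((X →L[ℝ] ℝ) →L[ℝ] ℝ) := NormedSpace.inclusionInDoubleDual ℝ X
  have hιnorm : ∀ x y : X, ‖ι x - ι y‖ = ‖x - y‖ := fun x y => by
    have e : ι x - ι y = ι (x - y) := by
      ext g
      change g x - g y = g (x - y)
      rw [map_sub]
    rw [e]
    exact (NormedSpace.inclusionInDoubleDualLi ℝ (E := X)).norm_map (x - y)
  have hιapp : ∀ (x : X) (g : X →L[ℝ] ℝ), ι x g = g x := fun _ _ => rfl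
  let F := (X × ℝ) × ((X →L[ℝ] ℝ) × (X →L[ℝ] ℝ))
  let Y : Set F :=
    {p | (∀ a : X, ∀ b ∈ T a, b p.1.1 + p.2.1 a - b a ≤ p.1.2) ∧ ‖p.2.2‖ ≤ C}
  have cY : Convex ℝ Y := by
    intro p hp p' hp' s t hs ht hst
    refine ⟨fun a b hb => ?_, ?_⟩
    · have e1 := hp.1 a b hb
      have e2 := hp'.1 a b hb
      change b (s • p.1.1 + t • p'.1.1) + (s • p.2.1 + t • p'.2.1) a - b a
        ≤ s * p.1.2 + t * p'.1.2
      simp only [map_add, map_smul, smul_eq_mul, add_apply, smul_apply]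
      have e3 : b a = s * b a + t * b a := by rw [← add_mul, hst, one_mul]
      nlinarith [mul_le_mul_of_nonneg_left e1 hs, mul_le_mul_of_nonneg_left e2 ht]
    · change ‖s • p.2.2 + t • p'.2.2‖ ≤ C
      refine (norm_add_le _ _).trans ?_
      rw [norm_smul, norm_smul, Real.norm_eq_abs, Real.norm_eq_abs, abs_of_nonneg hs,
        abs_of_nonneg ht]
      have e3 : C = s * C + t * C := by rw [← add_mul, hst, one_mul]
      nlinarith [mul_le_mul_of_nonneg_left hp.2 hs, mul_le_mul_of_nonneg_left hp'.2 ht]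
  let α : F →L[ℝ] (X →L[ℝ] ℝ) :=
    (ContinuousLinearMap.fst ℝ _ _).comp (ContinuousLinearMap.snd ℝ _ _) +
      (ContinuousLinearMap.snd ℝ _ _).comp (ContinuousLinearMap.snd ℝ _ _)
  let β : F →L[ℝ] X := (ContinuousLinearMap.fst ℝ _ _).comp (ContinuousLinearMap.fst ℝ _ _)
  let γ : F →L[ℝ] ℝ :=
    -((ι z).comp ((ContinuousLinearMap.snd ℝ _ _).comp (ContinuousLinearMap.snd ℝ _ _))) -
      (ContinuousLinearMap.snd ℝ _ _).comp (ContinuousLinearMap.fst ℝ _ _)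
  have hα : ∀ p : F, α p = p.2.1 + p.2.2 := fun _ => rfl
  have hβ : ∀ p : F, β p = p.1.1 := fun _ => rfl
  have hγ : ∀ p : F, γ p = -(p.2.2 z) - p.1.2 := fun _ => rfl
  have hyp : ∀ p ∈ Y, ∃ (φ : (X →L[ℝ] ℝ) →L[ℝ] ℝ) (v : X →L[ℝ] ℝ),
      ‖φ - ι z‖ ≤ 2 * ‖z - x0‖ ∧ ‖v‖ ≤ C ∧ φ (α p) + v (β p - z) + γ p ≤ 0 := by
    rintro ⟨⟨a, t⟩, b, g⟩ ⟨hp, hg⟩
    simp only at hp hg
    obtain ⟨v, hv1, hv2⟩ := exists_dual_vector'' ℝ (a - z)
    have hv2' : v (a - z) = ‖a - z‖ := hv2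
    have hvK : ‖-(C • v)‖ ≤ C := by
      rw [norm_neg, norm_smul, Real.norm_eq_abs, abs_of_nonneg hC0]
      exact mul_le_of_le_one_right hC0 hv1
    have hgu : ∀ u : X, g u - g z ≤ C * ‖u - z‖ := by
      intro u
      rw [← map_sub]
      exact (apply_le_norm_mul g _).trans (mul_le_mul_of_nonneg_right hg (norm_nonneg _))
    by_cases hc : ‖a - z‖ ≤ 2 * ‖z - x0‖
    · refine ⟨ι a, -(C • v), by rw [hιnorm]; exact hc, hvK, ?_⟩
      rw [hα, hβ, hγ, hιapp]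
      simp only [add_apply, neg_apply, smul_apply, smul_eq_mul, hv2']
      have := fitz_ge T hmax a b t hp
      have := hgu a
      linarith
    · push Not at hc
      refine ⟨ι x0, -(C • v), ?_, hvK, ?_⟩
      · rw [hιnorm, norm_sub_rev]; linarith [norm_nonneg (z - x0)]
      rw [hα, hβ, hγ, hιapp]
      simp only [add_apply, neg_apply, smul_apply, smul_eq_mul, hv2']
      have e1 := hp x0 y0 h0
      have e2 := hgu x0
      have e3 := neg_norm_mul_le_apply y0 (a - x0)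
      rw [map_sub] at e3
      have e4 : ‖a - x0‖ ≤ ‖a - z‖ + ‖z - x0‖ := norm_sub_le_norm_sub_add_norm_sub a z x0
      have e5 := mul_le_mul_of_nonneg_left e4 (norm_nonneg y0)
      rw [norm_sub_rev x0 z] at e2
      nlinarith [norm_nonneg y0, norm_nonneg (z - x0), norm_nonneg (a - z)]
  obtain ⟨φ, v, hφ, hvC, hqY⟩ := weak_minimax (ι z) (2 * ‖z - x0‖) C (by positivity) hC0 Y cY
    α β z γ hyp
  obtain ⟨u, hu⟩ := hrefl φ
  have huρ : ‖z - u‖ ≤ 2 * ‖z - x0‖ := by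
    have h2 : φ = ι u := by
      ext g; rw [hu]; rfl
    rw [h2, hιnorm, norm_sub_rev] at hφ
    exact hφ
  obtain ⟨w, hw1, hw2⟩ := exists_dual_vector'' ℝ (u - z)
  have hw2' : w (u - z) = ‖u - z‖ := hw2
  have hkey : ∀ a : X, ∀ b ∈ T a, b u + v a - b a ≤ v z - C * ‖z - u‖ := by
    intro a b hb
    have hmem : (((a, b a), b, C • w) : F) ∈ Y := by
      refine ⟨fun a' b' hb' => ?_, ?_⟩
      · have := hmon a a' b hb b' hb'
        simp only [sub_apply, map_sub] at this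
        simp only
        linarith
      · simp only
        rw [norm_smul, Real.norm_eq_abs, abs_of_nonneg hC0]
        exact mul_le_of_le_one_right hC0 hw1
    have h1 := hqY _ hmem
    rw [hα, hβ, hγ, hu] at h1
    simp only [add_apply, smul_apply, smul_eq_mul, map_sub] at h1 hw2'
    rw [norm_sub_rev z u, ← hw2']
    linarith
  have h1 := fitz_ge T hmax u v _ hkey
  have h2 : v (z - u) ≤ C * ‖z - u‖ :=
    (apply_le_norm_mul v _).trans (mul_le_mul_of_nonneg_right hvC (norm_nonneg _))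
  rw [map_sub] at h2
  refine ⟨u, v, hmax u v fun a b hb => ?_, hvC, ?_, huρ⟩
  · have := hkey a b hb
    simp only [sub_apply, map_sub]
    linarith
  · rw [map_sub]; linarith

end Pool.Agent.P.MP_438bde_an
end

-- part Pool.Agent.P.MP_438bde_an.Weak
section

/-!
Weak compactness tools in a reflexive real normed space.
-/

open Filter Topology Metric Set

namespace Pool.Agent.P.MP_438bde_an

section General

variable {Y : Type*} [NormedAddCommGroup Y] [NormedSpace ℝ Y]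

theorem mem_closure_of_forall_dual (S : Submodule ℝ Y) (x : Y)
    (h : ∀ f : Y →L[ℝ] ℝ, (∀ s ∈ S, f s = 0) → f x = 0) : x ∈ closure (S : Set Y) := by
  by_contra hx
  obtain ⟨f, u, hfx, hfu⟩ := geometric_hahn_banach_point_closed
    (S.convex.closure) isClosed_closure hx
  have h0 : u < 0 := by simpa using hfu 0 (subset_closure S.zero_mem)
  have hS : ∀ s ∈ S, f s = 0 := by
    intro s hs
    by_contra hne
    have := hfu ((u / f s) • s) (subset_closure (S.smul_mem _ hs))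
    rw [map_smul, smul_eq_mul, div_mul_cancel₀ _ hne] at this
    exact lt_irrefl _ this
  have := h f hS
  linarith

/-- Weak-star limit of a bounded sequence of functionals along an ultrafilter. -/
theorem exists_ultra_limit_dual (U : Ultrafilter ℕ) (v : ℕ → (Y →L[ℝ] ℝ)) (M : ℝ)
    (hv : ∀ n, ‖v n‖ ≤ M) :
    ∃ w : Y →L[ℝ] ℝ, ∀ y : Y, Tendsto (fun j => v j y) U (𝓝 (w y)) := by
  let v' : ℕ → WeakDual ℝ Y := fun n => StrongDual.toWeakDual (v n)
  have hK := WeakDual.isCompact_closedBall (𝕜 := ℝ) (E := Y) 0 M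
  have hle : (↑(U.map v') : Filter (WeakDual ℝ Y)) ≤
      𝓟 (WeakDual.toStrongDual ⁻¹' closedBall (0 : StrongDual ℝ Y) M) := by
    rw [Ultrafilter.coe_map, le_principal_iff, mem_map]
    refine univ_mem' fun n => ?_
    simpa [v'] using hv n
  obtain ⟨w, -, hw⟩ := hK.ultrafilter_le_nhds (U.map v') hle
  refine ⟨WeakDual.toStrongDual w, fun y => ?_⟩
  have h1 : Tendsto v' U (𝓝 w) := hw
  exact ((WeakDual.eval_continuous y).tendsto w).comp h1

end General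

variable {X : Type*} [NormedAddCommGroup X] [NormedSpace ℝ X]

theorem exists_ultra_limit
    (hrefl : ∀ φ : (X →L[ℝ] ℝ) →L[ℝ] ℝ, ∃ x : X, ∀ f : X →L[ℝ] ℝ, φ f = f x)
    (U : Ultrafilter ℕ) (v : ℕ → X) (M : ℝ) (hv : ∀ n, ‖v n‖ ≤ M) :
    ∃ x : X, ∀ f : X →L[ℝ] ℝ, Tendsto (fun j => f (v j)) U (𝓝 (f x)) := by
  obtain ⟨w, hw⟩ := exists_ultra_limit_dual U
    (fun n => NormedSpace.inclusionInDoubleDual ℝ X (v n)) M
    (fun n => (NormedSpace.double_dual_bound ℝ X (v n)).trans (hv n))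
  obtain ⟨x, hx⟩ := hrefl w
  refine ⟨x, fun f => ?_⟩
  have := hw f
  rw [hx] at this
  simpa using this

/-- A bounded sequence in a reflexive space has a weakly convergent subsequence. -/
theorem exists_weak_subseq
    (hrefl : ∀ φ : (X →L[ℝ] ℝ) →L[ℝ] ℝ, ∃ x : X, ∀ f : X →L[ℝ] ℝ, φ f = f x)
    (u : ℕ → X) (M : ℝ) (hu : ∀ n, ‖u n‖ ≤ M) :
    ∃ (φ : ℕ → ℕ) (x : X), StrictMono φ ∧
      ∀ f : X →L[ℝ] ℝ, Tendsto (fun j => f (u (φ j))) atTop (𝓝 (f x)) := by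
  let S : Submodule ℝ X := Submodule.span ℝ (range u)
  have hsep : TopologicalSpace.IsSeparable (closure (S : Set X)) :=
    ((countable_range u).isSeparable.span).closure
  obtain ⟨c, hc, hSc⟩ := hsep
  have hne : (insert (0 : X) c).Nonempty := insert_nonempty _ _
  obtain ⟨y, hy⟩ := (hc.insert 0).exists_eq_range hne
  choose g hg1 hg2 using fun k => exists_dual_vector'' ℝ (y k)
  have hsepar : ∀ x ∈ closure (S : Set X), (∀ k, g k x = 0) → x = 0 := by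
    intro x hx h0
    refine norm_le_zero_iff.mp (le_of_forall_pos_le_add fun ε hε => ?_)
    obtain ⟨b, hb, hxb⟩ := Metric.mem_closure_iff.mp (hSc hx) (ε / 2) (by positivity)
    obtain ⟨k, rfl⟩ : b ∈ range y := hy ▸ mem_insert_of_mem _ hb
    rw [dist_eq_norm] at hxb
    have e1 : ‖y k‖ = g k (y k - x) := by
      rw [map_sub, h0 k, sub_zero]; exact (hg2 k).symm
    have e2 : g k (y k - x) ≤ ‖y k - x‖ := by
      refine (le_abs_self _).trans ?_
      have := (g k).le_opNorm (y k - x)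
      rw [Real.norm_eq_abs] at this
      exact this.trans (mul_le_of_le_one_left (norm_nonneg _) (hg1 k))
    have e3 : ‖x‖ ≤ ‖y k‖ + ‖x - y k‖ := norm_le_norm_add_norm_sub' x (y k)
    rw [norm_sub_rev] at e2
    linarith
  have hK : IsCompact (Set.pi univ fun _ : ℕ => Icc (-M) M) :=
    isCompact_univ_pi fun _ => isCompact_Icc
  have hmem : ∀ n, (fun k => g k (u n)) ∈ Set.pi univ fun _ : ℕ => Icc (-M) M := by
    intro n k _
    have := (g k).le_opNorm (u n)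
    rw [Real.norm_eq_abs] at this
    exact abs_le.mp (this.trans ((mul_le_of_le_one_left (norm_nonneg _) (hg1 k)).trans (hu n)))
  obtain ⟨a, -, φ, hφ, hlim⟩ := hK.tendsto_subseq hmem
  have hlimk : ∀ k, Tendsto (fun j => g k (u (φ j))) atTop (𝓝 (a k)) := fun k =>
    ((continuous_apply k).tendsto a).comp hlim
  have hU : ∀ U : Ultrafilter ℕ, (U : Filter ℕ) ≤ atTop → ∃ x ∈ closure (S : Set X),
      (∀ k, g k x = a k) ∧
      ∀ f : X →L[ℝ] ℝ, Tendsto (fun j => f (u (φ j))) U (𝓝 (f x)) := by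
    intro U hUle
    obtain ⟨x, hx⟩ := exists_ultra_limit hrefl U (fun j => u (φ j)) M (fun j => hu _)
    refine ⟨x, mem_closure_of_forall_dual S x fun f hf => ?_, fun k => ?_, hx⟩
    · have h1 := hx f
      have h2 : (fun j => f (u (φ j))) = fun _ => 0 :=
        funext fun j => hf _ (Submodule.subset_span (mem_range_self _))
      rw [h2] at h1
      exact tendsto_nhds_unique h1 tendsto_const_nhds
    · exact tendsto_nhds_unique (hx (g k)) ((hlimk k).mono_left hUle)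
  obtain ⟨x0, hx0, hx0k, -⟩ := hU (Ultrafilter.of atTop) (Ultrafilter.of_le _)
  refine ⟨φ, x0, hφ, fun f => ?_⟩
  rw [tendsto_iff_ultrafilter]
  intro U hUle
  obtain ⟨x, hx, hxk, hxf⟩ := hU U hUle
  have : x - x0 = 0 := by
    refine hsepar _ (S.topologicalClosure.sub_mem hx hx0) fun k => ?_
    rw [map_sub, hxk, hx0k, sub_self]
  rw [← sub_eq_zero.mp this]
  exact hxf f

/-- A finite dimensional space of functionals is normed by a finite dimensional subspace. -/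
theorem exists_norming (Z : Submodule ℝ (X →L[ℝ] ℝ)) [FiniteDimensional ℝ Z] :
    ∃ F : Submodule ℝ X, FiniteDimensional ℝ F ∧
      ∀ ζ ∈ Z, ∃ w ∈ F, ‖w‖ ≤ 1 ∧ ‖ζ‖ ≤ 2 * ζ w := by
  have hK : IsCompact (sphere (0 : Z) 1) := isCompact_sphere _ _
  let V : closedBall (0 : X) 1 → Set Z := fun w => {ζ | 1 / 2 < (ζ : X →L[ℝ] ℝ) w}
  have hV : ∀ w, IsOpen (V w) := by
    intro w
    refine isOpen_lt continuous_const ?_
    exact ((ContinuousLinearMap.apply ℝ ℝ (w : X)).continuous).comp continuous_subtype_val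
  have hcov : sphere (0 : Z) 1 ⊆ ⋃ w, V w := by
    intro ζ hζ
    have h1 : ‖(ζ : X →L[ℝ] ℝ)‖ = 1 := mem_sphere_zero_iff_norm.mp hζ
    obtain ⟨x, hx, hx2⟩ := (ζ : X →L[ℝ] ℝ).exists_lt_apply_of_lt_opNorm (r := 1 / 2)
      (by rw [h1]; norm_num)
    rw [Real.norm_eq_abs] at hx2
    rcases le_or_gt 0 ((ζ : X →L[ℝ] ℝ) x) with h | h
    · rw [abs_of_nonneg h] at hx2
      exact mem_iUnion.mpr ⟨⟨x, by simpa using hx.le⟩, hx2⟩
    · rw [abs_of_neg h] at hx2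
      exact mem_iUnion.mpr ⟨⟨-x, by simpa using hx.le⟩, by simpa [V] using hx2⟩
  obtain ⟨t, ht⟩ := hK.elim_finite_subcover V hV hcov
  refine ⟨Submodule.span ℝ ((fun w : closedBall (0 : X) 1 => (w : X)) '' (t : Set _)),
    FiniteDimensional.span_of_finite ℝ (t.finite_toSet.image _), fun ζ hζ => ?_⟩
  by_cases h0 : ζ = 0
  · exact ⟨0, Submodule.zero_mem _, by simp, by simp [h0]⟩
  have hn : 0 < ‖ζ‖ := norm_pos_iff.mpr h0
  have hmem : (⟨‖ζ‖⁻¹ • ζ, Z.smul_mem _ hζ⟩ : Z) ∈ sphere (0 : Z) 1 := by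
    have h1 : ‖(⟨‖ζ‖⁻¹ • ζ, Z.smul_mem _ hζ⟩ : Z)‖ = 1 := by
      change ‖‖ζ‖⁻¹ • ζ‖ = 1
      rw [norm_smul, norm_inv, norm_norm, inv_mul_cancel₀ hn.ne']
    exact (mem_sphere_zero_iff_norm (E := Z)).mpr h1
  obtain ⟨w, hw, hw2⟩ := mem_iUnion₂.mp (ht hmem)
  refine ⟨w, Submodule.subset_span (mem_image_of_mem _ hw), mem_closedBall_zero_iff.mp w.2, ?_⟩
  have h3 : 1 / 2 < ‖ζ‖⁻¹ * ζ w := by simpa [V] using hw2
  rw [inv_mul_eq_div, lt_div_iff₀ hn] at h3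
  linarith

/-- If the functionals of a bounded sequence eventually kill a family of subspaces that norms
their span, then the sequence tends to zero pointwise. -/
theorem tendsto_zero_of_norming
    (hrefl : ∀ φ : (X →L[ℝ] ℝ) →L[ℝ] ℝ, ∃ x : X, ∀ f : X →L[ℝ] ℝ, φ f = f x)
    (ζ : ℕ → (X →L[ℝ] ℝ)) (M : ℝ) (hM : ∀ n, ‖ζ n‖ ≤ M)
    (hnorm : ∀ η ∈ Submodule.span ℝ (range ζ), ∃ w : X, ‖w‖ ≤ 1 ∧ ‖η‖ ≤ 2 * η w ∧
      ∀ᶠ n in atTop, ζ n w = 0) (v : X) :
    Tendsto (fun n => ζ n v) atTop (𝓝 0) := by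
  rw [tendsto_iff_ultrafilter]
  intro U hU
  obtain ⟨w, hw⟩ := exists_ultra_limit_dual U ζ M hM
  have hcl : w ∈ closure (Submodule.span ℝ (range ζ) : Set (X →L[ℝ] ℝ)) := by
    refine mem_closure_of_forall_dual _ w fun φ hφ => ?_
    obtain ⟨x, hx⟩ := hrefl φ
    rw [hx]
    have h1 := hw x
    have h2 : (fun j => ζ j x) = fun _ => 0 := funext fun j => by
      rw [← hx]; exact hφ _ (Submodule.subset_span (mem_range_self _))
    rw [h2] at h1
    exact tendsto_nhds_unique h1 tendsto_const_nhds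
  have hw0 : w = 0 := by
    refine norm_le_zero_iff.mp (le_of_forall_pos_le_add fun ε hε => ?_)
    obtain ⟨η, hη, hwη⟩ := Metric.mem_closure_iff.mp hcl (ε / 3) (by positivity)
    obtain ⟨x, hx1, hx2, hx3⟩ := hnorm η hη
    have e0 : w x = 0 := by
      refine tendsto_nhds_unique (hw x) ?_
      exact tendsto_const_nhds.congr' ((hx3.filter_mono hU).mono fun n hn => hn.symm)
    rw [dist_eq_norm] at hwη
    have e1 : η x = (η - w) x := by simp [e0]
    have e2 : (η - w) x ≤ ‖η - w‖ := by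
      refine (le_abs_self _).trans ?_
      have := (η - w).le_opNorm x
      rw [Real.norm_eq_abs] at this
      exact this.trans (mul_le_of_le_one_right (norm_nonneg _) hx1)
    have e3 : ‖w‖ ≤ ‖η‖ + ‖w - η‖ := norm_le_norm_add_norm_sub' w η
    rw [norm_sub_rev] at e2
    linarith
  have := hw v
  rwa [hw0] at this

end Pool.Agent.P.MP_438bde_an
end

-- part Pool.Agent.P.MP_438bde_an.Approx
section

/-!
Galerkin approximations for a bounded, not necessarily continuous, field of functionals.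
-/

open Filter Topology Metric Set

namespace Pool.Agent.P.MP_438bde_an

variable {X : Type*} [NormedAddCommGroup X] [NormedSpace ℝ X]

theorem exists_approx (r : X → (X →L[ℝ] ℝ)) (ρ M : ℝ) (hρ : 0 ≤ ρ)
    (hM : ∀ p, ‖p‖ ≤ ρ → ‖r p‖ ≤ M) (hpos : ∀ p, ‖p‖ = ρ → 0 < r p p)
    (F : Submodule ℝ X) [FiniteDimensional ℝ F] (δ : ℝ) (hδ : 0 < δ) :
    ∃ z ∈ F, ‖z‖ ≤ ρ ∧ ∃ ζ : X →L[ℝ] ℝ, ‖ζ‖ ≤ M ∧ (∀ w ∈ F, ζ w = 0) ∧
      ∀ v, ∃ p, ‖p - z‖ < δ ∧ r p v ≤ ζ v := by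
  let t : F → Set (X →L[ℝ] ℝ) := fun z =>
    {ζ | (‖(z : X)‖ ≤ ρ → ‖ζ‖ ≤ M ∧ ∀ v, ∃ p : X, ‖p - z‖ < δ ∧ r p v ≤ ζ v) ∧
      (ρ < ‖(z : X)‖ → 0 < ζ z)}
  have ht : ∀ z, Convex ℝ (t z) := by
    intro z ζ hζ ζ' hζ' a b ha hb hab
    refine ⟨fun hz => ⟨?_, fun v => ?_⟩, fun hz => ?_⟩
    · refine (norm_add_le _ _).trans ?_
      rw [norm_smul, norm_smul, Real.norm_eq_abs, Real.norm_eq_abs, abs_of_nonneg ha,
        abs_of_nonneg hb]
      have e3 : M = a * M + b * M := by rw [← add_mul, hab, one_mul]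
      nlinarith [mul_le_mul_of_nonneg_left (hζ.1 hz).1 ha,
        mul_le_mul_of_nonneg_left (hζ'.1 hz).1 hb]
    · simp only [add_apply, smul_apply, smul_eq_mul]
      rcases le_total (ζ v) (ζ' v) with h | h
      · obtain ⟨p, hp, hpv⟩ := (hζ.1 hz).2 v
        refine ⟨p, hp, hpv.trans ?_⟩
        have e3 : ζ v = a * ζ v + b * ζ v := by rw [← add_mul, hab, one_mul]
        nlinarith [mul_le_mul_of_nonneg_left h hb]
      · obtain ⟨p, hp, hpv⟩ := (hζ'.1 hz).2 v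
        refine ⟨p, hp, hpv.trans ?_⟩
        have e3 : ζ' v = a * ζ' v + b * ζ' v := by rw [← add_mul, hab, one_mul]
        nlinarith [mul_le_mul_of_nonneg_left h ha]
    · simp only [add_apply, smul_apply, smul_eq_mul]
      have h1 := hζ.2 hz
      have h2 := hζ'.2 hz
      rcases ha.lt_or_eq with h | h
      · nlinarith [mul_pos h h1, mul_nonneg hb h2.le]
      · rw [← h, zero_add] at hab
        rw [← h, hab]
        simpa using h2
  have hloc : ∀ x : F, ∃ c : X →L[ℝ] ℝ, ∀ᶠ y in 𝓝 x, c ∈ t y := by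
    intro x
    have hn : Continuous fun y : F => ‖(y : X)‖ := continuous_subtype_val.norm
    have hev : ∀ c : X →L[ℝ] ℝ, 0 < c x → ∀ᶠ y : F in 𝓝 x, 0 < c y := fun c hc =>
      (c.continuous.comp continuous_subtype_val).continuousAt.eventually (lt_mem_nhds hc)
    have hnear : ∀ᶠ y : F in 𝓝 x, ‖(x : X) - y‖ < δ := by
      have hc : Continuous fun y : F => ‖(x : X) - y‖ :=
        (continuous_const.sub continuous_subtype_val).norm
      exact hc.continuousAt.eventually (gt_mem_nhds (by simpa using hδ))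
    rcases lt_trichotomy ‖(x : X)‖ ρ with h | h | h
    · refine ⟨r x, ?_⟩
      filter_upwards [hnear, hn.continuousAt.eventually (gt_mem_nhds h)] with y hy hy2
      exact ⟨fun _ => ⟨hM _ h.le, fun v => ⟨x, hy, le_rfl⟩⟩, fun h' => absurd h' hy2.not_gt⟩
    · refine ⟨r x, ?_⟩
      filter_upwards [hnear, hev _ (hpos _ h)] with y hy hy2
      exact ⟨fun _ => ⟨hM _ h.le, fun v => ⟨x, hy, le_rfl⟩⟩, fun _ => hy2⟩
    · obtain ⟨c, -, hc⟩ := exists_dual_vector'' ℝ (x : X)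
      have hc' : c x = ‖(x : X)‖ := hc
      refine ⟨c, ?_⟩
      filter_upwards [hn.continuousAt.eventually (lt_mem_nhds h),
        hev c (hc' ▸ hρ.trans_lt h)] with y hy hy2
      exact ⟨fun h' => absurd hy h'.not_gt, fun _ => hy2⟩
  obtain ⟨g, hg⟩ := exists_continuous_forall_mem_convex_of_local_const ht hloc
  obtain ⟨z, hz⟩ := Pool.Agent.Lib.Brouwer.exists_zero_of_pos_radial
    (fun z : F => (g z).comp F.subtypeL) (g.continuous.clm_comp continuous_const) ρ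
    (fun z hz => (hg z).2 hz)
  have hz0 : ∀ w ∈ F, g z w = 0 := fun w hw =>
    congrArg (fun φ : StrongDual ℝ F => φ ⟨w, hw⟩) hz
  have hzρ : ‖(z : X)‖ ≤ ρ := by
    by_contra h
    have := (hg z).2 (not_le.mp h)
    rw [hz0 _ z.2] at this
    exact lt_irrefl _ this
  exact ⟨z, z.2, hzρ, g z, ((hg z).1 hzρ).1, hz0, ((hg z).1 hzρ).2⟩

theorem exists_seq
    (hrefl : ∀ φ : (X →L[ℝ] ℝ) →L[ℝ] ℝ, ∃ x : X, ∀ f : X →L[ℝ] ℝ, φ f = f x)
    (r : X → (X →L[ℝ] ℝ)) (ρ M : ℝ) (hρ : 0 ≤ ρ)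
    (hM : ∀ p, ‖p‖ ≤ ρ → ‖r p‖ ≤ M) (hpos : ∀ p, ‖p‖ = ρ → 0 < r p p) :
    ∃ (z : ℕ → X) (ζ : ℕ → (X →L[ℝ] ℝ)) (zb : X), (∀ n, ‖z n‖ ≤ ρ) ∧ (∀ n, ζ n (z n) = 0) ∧
      (∀ v, Tendsto (fun n => ζ n v) atTop (𝓝 0)) ∧
      (∀ f : X →L[ℝ] ℝ, Tendsto (fun n => f (z n)) atTop (𝓝 (f zb))) ∧
      ∀ n v, ∃ p, ‖p - z n‖ < 1 / ((n : ℝ) + 1) ∧ r p v ≤ ζ n v := by
  let S := {s : Submodule ℝ X × Submodule ℝ (X →L[ℝ] ℝ) //
    FiniteDimensional ℝ s.1 ∧ FiniteDimensional ℝ s.2}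
  have happ : ∀ (s : S) (n : ℕ), ∃ z ∈ s.1.1, ‖z‖ ≤ ρ ∧ ∃ ζ : X →L[ℝ] ℝ, ‖ζ‖ ≤ M ∧
      (∀ w ∈ s.1.1, ζ w = 0) ∧ ∀ v, ∃ p, ‖p - z‖ < 1 / ((n : ℝ) + 1) ∧ r p v ≤ ζ v := by
    intro s n
    have := s.2.1
    exact exists_approx r ρ M hρ hM hpos s.1.1 _ Nat.one_div_pos_of_nat
  choose zf hzF hzρ ζf hζM hζF hζv using happ
  have hstep : ∀ (s : S) (n : ℕ), ∃ s' : S, s.1.1 ≤ s'.1.1 ∧ s.1.2 ≤ s'.1.2 ∧ ζf s n ∈ s'.1.2 ∧
      ∀ η ∈ s'.1.2, ∃ w ∈ s'.1.1, ‖w‖ ≤ 1 ∧ ‖η‖ ≤ 2 * η w := by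
    intro s n
    have := s.2.1
    have := s.2.2
    obtain ⟨N, hN, hN2⟩ := exists_norming (s.1.2 ⊔ Submodule.span ℝ {ζf s n})
    refine ⟨⟨(s.1.1 ⊔ N, s.1.2 ⊔ Submodule.span ℝ {ζf s n}), inferInstance, inferInstance⟩,
      le_sup_left, le_sup_left,
      Submodule.mem_sup_right (Submodule.mem_span_singleton_self _), fun η hη => ?_⟩
    obtain ⟨w, hw, hw2⟩ := hN2 η hη
    exact ⟨w, Submodule.mem_sup_right hw, hw2⟩
  choose step hs1 hs2 hs3 hs4 using hstep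
  let σ : ℕ → S := fun n => Nat.rec ⟨(⊥, ⊥), inferInstance, inferInstance⟩ (fun n s => step s n) n
  have hσ : ∀ n, σ (n + 1) = step (σ n) n := fun _ => rfl
  have hF : Monotone fun n => (σ n).1.1 := monotone_nat_of_le_succ fun n => by
    rw [hσ]; exact hs1 _ _
  have hZ : Monotone fun n => (σ n).1.2 := monotone_nat_of_le_succ fun n => by
    rw [hσ]; exact hs2 _ _
  let ζ : ℕ → (X →L[ℝ] ℝ) := fun n => ζf (σ n) n
  let z : ℕ → X := fun n => zf (σ n) n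
  have hspan : ∀ η ∈ Submodule.span ℝ (range ζ), ∃ m, η ∈ (σ (m + 1)).1.2 := by
    intro η hη
    induction hη using Submodule.span_induction with
    | mem x hx =>
      obtain ⟨n, rfl⟩ := hx
      exact ⟨n, hσ n ▸ hs3 _ _⟩
    | zero => exact ⟨0, Submodule.zero_mem _⟩
    | add x y _ _ hx hy =>
      obtain ⟨m, hm⟩ := hx
      obtain ⟨k, hk⟩ := hy
      exact ⟨max m k, Submodule.add_mem _ 
        (hZ (show m + 1 ≤ max m k + 1 by omega) hm) (hZ (show k + 1 ≤ max m k + 1 by omega) hk)⟩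
    | smul a x _ hx =>
      obtain ⟨m, hm⟩ := hx
      exact ⟨m, Submodule.smul_mem _ _ hm⟩
  have hζ0 : ∀ v, Tendsto (fun n => ζ n v) atTop (𝓝 0) := by
    refine tendsto_zero_of_norming hrefl ζ M (fun n => hζM _ _) fun η hη => ?_
    obtain ⟨m, hm⟩ := hspan η hη
    rw [hσ] at hm
    obtain ⟨w, hw, hw1, hw2⟩ := hs4 _ _ η hm
    refine ⟨w, hw1, hw2, ?_⟩
    filter_upwards [eventually_ge_atTop (m + 1)] with n hn
    rw [← hσ] at hw
    exact hζF _ _ w (hF hn hw)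
  obtain ⟨φ, zb, hφ, hzb⟩ := exists_weak_subseq hrefl z ρ fun n => hzρ _ _
  refine ⟨fun n => z (φ n), fun n => ζ (φ n), zb, fun n => hzρ _ _,
    fun n => hζF _ _ _ (hzF _ _), fun v => (hζ0 v).comp hφ.tendsto_atTop, hzb, fun n v => ?_⟩
  obtain ⟨p, hp, hpv⟩ := hζv (σ (φ n)) (φ n) v
  refine ⟨p, hp.trans_le ?_, hpv⟩
  exact Nat.one_div_le_one_div (hφ.id_le n)

end Pool.Agent.P.MP_438bde_an
end

-- part Pool.Agent.P.MP_438bde_an.Main
section

/-!
Surjectivity of coercive T-pseudomonotone perturbations of maximal monotone maps.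
-/

open Filter Topology Metric Set

namespace Pool.Agent.P.MP_438bde_an

variable {X : Type*} [NormedAddCommGroup X] [NormedSpace ℝ X]

theorem apply_le_mul {f : X →L[ℝ] ℝ} {C : ℝ} (h : ‖f‖ ≤ C) (x : X) : f x ≤ C * ‖x‖ :=
  (apply_le_norm_mul f x).trans (mul_le_mul_of_nonneg_right h (norm_nonneg _))

theorem neg_mul_le_apply {f : X →L[ℝ] ℝ} {C : ℝ} (h : ‖f‖ ≤ C) (x : X) : -(C * ‖x‖) ≤ f x := by
  have := apply_le_mul h (-x)
  rw [map_neg, norm_neg] at this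
  linarith

theorem weak_of_close {z : ℕ → X} {zb : X}
    (hz : ∀ f : X →L[ℝ] ℝ, Tendsto (fun n => f (z n)) atTop (𝓝 (f zb)))
    {p : ℕ → X} {e : ℕ → ℝ} (he : Tendsto e atTop (𝓝 0)) (hp : ∀ n, ‖p n - z n‖ ≤ e n)
    (f : X →L[ℝ] ℝ) : Tendsto (fun n => f (p n)) atTop (𝓝 (f zb)) := by
  have h1 : Tendsto (fun n => p n - z n) atTop (𝓝 0) :=
    squeeze_zero_norm hp he
  have h2 := (f.continuous.tendsto 0).comp h1
  rw [map_zero] at h2
  have h3 := h2.add (hz f)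
  rw [zero_add] at h3
  refine h3.congr fun n => ?_
  simp

theorem tendsto_theta {φ : ℕ → ℕ} (hφ : StrictMono φ) :
    Tendsto (fun n : ℕ => 1 / (((φ n : ℕ) : ℝ) + 1)) atTop (𝓝 0) :=
  tendsto_one_div_add_atTop_nhds_zero_nat.comp hφ.tendsto_atTop

theorem exists_zero
    (hrefl : ∀ φ : (X →L[ℝ] ℝ) →L[ℝ] ℝ, ∃ x : X, ∀ f : X →L[ℝ] ℝ, φ f = f x)
    (T : X → Set (X →L[ℝ] ℝ)) (T0 : X → (X →L[ℝ] ℝ))
    (hmon : ∀ x y : X, ∀ f ∈ T x, ∀ g ∈ T y, 0 ≤ (f - g) (x - y))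
    (hmax : ∀ (x : X) (f : X →L[ℝ] ℝ),
      (∀ y : X, ∀ g ∈ T y, 0 ≤ (f - g) (x - y)) → f ∈ T x)
    (hbd : ∀ R : ℝ, ∃ M : ℝ, ∀ x : X, ‖x‖ ≤ R → ‖T0 x‖ ≤ M)
    (hpm : ∀ (u : ℕ → X) (v : X) (y : ℕ → (X →L[ℝ] ℝ)),
      (∀ f : X →L[ℝ] ℝ, Tendsto (fun j => f (u j)) atTop (𝓝 (f v))) →
      (∀ j, y j ∈ T (u j)) → (∃ C : ℝ, ∀ j, ‖y j‖ ≤ C) →
      (∀ ε : ℝ, 0 < ε → ∀ᶠ j in atTop, (T0 (u j)) (u j - v) ≤ ε) →
      ((∀ w : X, Tendsto (fun j => T0 (u j) w) atTop (𝓝 (T0 v w))) ∧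
        Tendsto (fun j => (T0 (u j)) (u j - v)) atTop (𝓝 0)))
    (R : ℝ) (hco : ∀ x : X, ∀ y ∈ T x, R ≤ ‖x‖ → ‖x‖ ≤ (y + T0 x) x) :
    ∃ x : X, -T0 x ∈ T x := by
  obtain ⟨x0, y0, h0⟩ : ∃ x0, ∃ y0, y0 ∈ T x0 := by
    by_contra hcon
    push Not at hcon
    exact hcon 0 0 (hmax 0 0 fun y g hg => absurd hg (hcon y g))
  set R1 := max R 1 with hR1
  have hR1pos : 1 ≤ R1 := le_max_right _ _
  have hRR1 : R ≤ R1 := le_max_left _ _
  set ρ := R1 + ‖x0‖ + 1 with hρ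
  have hx0 := norm_nonneg x0
  have hy0 := norm_nonneg y0
  set R' := (ρ + 1) + 2 * (ρ + 1 + ‖x0‖) with hR'
  obtain ⟨C0, hC0⟩ := hbd R'
  have hC0pos : 0 ≤ C0 := (norm_nonneg _).trans (hC0 0 (by rw [norm_zero]; positivity))
  set C' := 3 * ‖y0‖ + C0 + 1 with hC'
  set C := 2 * C0 + C' + 1 + C0 * (‖x0‖ + 1 + R1) + ‖y0‖ * (R1 + ‖x0‖) with hC
  have hCge : 2 * C0 + C' + 1 ≤ C := by
    have h1 : 0 ≤ C0 * (‖x0‖ + 1 + R1) := by positivity
    have h2 : 0 ≤ ‖y0‖ * (R1 + ‖x0‖) := by positivity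
    linarith
  choose xs ys hys hysC hysn hxs using
    exists_decomp hrefl T hmon hmax x0 y0 h0 C (by linarith)
  have hxsR : ∀ p, ‖p‖ ≤ ρ + 1 → ‖xs p‖ ≤ R' := by
    intro p hp
    have e1 : ‖xs p‖ ≤ ‖p‖ + ‖p - xs p‖ := by
      have := norm_sub_le p (p - xs p)
      rwa [sub_sub_cancel] at this
    have e2 := norm_sub_le p x0
    have e3 := hxs p
    linarith
  have hT0 : ∀ p, ‖p‖ ≤ ρ + 1 → ‖T0 (xs p)‖ ≤ C0 := fun p hp => hC0 _ (hxsR p hp)
  let r : X → (X →L[ℝ] ℝ) := fun p => ys p + T0 (xs p)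
  have hrM : ∀ p, ‖p‖ ≤ ρ + 1 → ‖r p‖ ≤ C + C0 := fun p hp =>
    (norm_add_le _ _).trans (add_le_add (hysC p) (hT0 p hp))
  -- basic lower bound
  have hlow : ∀ p, ‖p‖ ≤ ρ + 1 → ∀ a : X, ∀ b ∈ T a,
      b (xs p - a) + T0 (xs p) (xs p - a) + (C - C0) * ‖p - xs p‖ ≤ r p (p - a) := by
    intro p hp a b hb
    have e1 := hmon _ _ _ (hys p) _ hb
    have e2 := hysn p
    have e3 := neg_mul_le_apply (hT0 p hp) (p - xs p)
    simp only [r, add_apply, sub_apply, map_sub] at e1 e2 e3 ⊢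
    linarith
  have hpos : ∀ p, ‖p‖ = ρ → 0 < r p p := by
    intro p hp
    have hp1 : ‖p‖ ≤ ρ + 1 := by linarith
    have e2 := hysn p
    have e3 := neg_mul_le_apply (hT0 p hp1) (p - xs p)
    have hn := norm_nonneg (p - xs p)
    by_cases hx : R1 ≤ ‖xs p‖
    · have e1 := hco _ _ (hys p) (hRR1.trans hx)
      simp only [r, add_apply, map_sub] at e1 e2 e3 ⊢
      nlinarith
    · push Not at hx
      have e1 := hmon _ _ _ (hys p) _ h0
      have e4 := neg_mul_le_apply (hysC p) x0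
      have e5 := neg_norm_mul_le_apply y0 (xs p - x0)
      have e6 := neg_mul_le_apply (hT0 p hp1) (xs p)
      have e7 : ‖xs p - x0‖ ≤ R1 + ‖x0‖ := (norm_sub_le _ _).trans (by linarith)
      have e8 : ‖x0‖ + 1 ≤ ‖p - xs p‖ := by
        have := norm_sub_norm_le p (xs p)
        linarith
      have e9 := mul_le_mul_of_nonneg_left e7 hy0
      have e10 := mul_le_mul_of_nonneg_left hx.le hC0pos
      have e11 := mul_le_mul_of_nonneg_left e8 (show 0 ≤ C - C0 by linarith)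
      simp only [r, add_apply, sub_apply, map_sub] at e1 e2 e3 e5 ⊢
      nlinarith
  obtain ⟨z, ζ, zb, hzρ, hζz, hζ0, hz, hζp⟩ := exists_seq hrefl r ρ (C + C0) (by positivity)
    (fun p hp => hrM p (by linarith)) hpos
  have hθ1 : ∀ n : ℕ, 1 / ((n : ℝ) + 1) ≤ 1 := fun n => by
    rw [div_le_one (by positivity)]; linarith [Nat.cast_nonneg (α := ℝ) n]
  have hpρ : ∀ (n : ℕ) (p : X), ‖p - z n‖ < 1 / ((n : ℝ) + 1) → ‖p‖ ≤ ρ + 1 := by
    intro n p hp
    have := norm_le_norm_add_norm_sub' p (z n)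
    linarith [hzρ n, hθ1 n]
  have hθ : Tendsto (fun n : ℕ => 1 / ((n : ℝ) + 1)) atTop (𝓝 0) :=
    tendsto_one_div_add_atTop_nhds_zero_nat
  -- Claim 1
  have claim1 : ∀ η : ℝ, 0 < η → ∀ᶠ j in atTop, ∀ p : X, ‖p - z j‖ < 1 / ((j : ℝ) + 1) →
      -η ≤ T0 (xs p) (xs p - zb) + C0 * ‖p - xs p‖ := by
    intro η hη
    by_contra hcon
    rw [not_eventually] at hcon
    obtain ⟨ψ, hψ, hψp⟩ := extraction_of_frequently_atTop hcon
    push Not at hψp
    choose p hp1 hp2 using hψp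
    obtain ⟨χ, xt, hχ, hxt⟩ := exists_weak_subseq hrefl (fun k => xs (p k)) R'
      fun k => hxsR _ (hpρ _ _ (hp1 k))
    have hpw : ∀ f : X →L[ℝ] ℝ, Tendsto (fun k => f (p (χ k))) atTop (𝓝 (f zb)) := fun f =>
      (weak_of_close (z := fun k => z (ψ k)) (fun f => (hz f).comp hψ.tendsto_atTop)
        (tendsto_theta hψ) (fun k => (hp1 k).le) f).comp hχ.tendsto_atTop
    obtain ⟨g, hg1, hg2⟩ := exists_dual_vector'' ℝ (zb - xt)
    have hg2' : g (zb - xt) = ‖zb - xt‖ := hg2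
    have hgl : Tendsto (fun k => C0 * g (p (χ k) - xs (p (χ k)))) atTop
        (𝓝 (C0 * ‖zb - xt‖)) := by
      rw [← hg2']
      simp only [map_sub]
      exact ((hpw g).sub (hxt g)).const_mul C0
    have hev : ∀ᶠ k in atTop, T0 (xs (p (χ k))) (xs (p (χ k)) - xt) ≤ -(η / 2) := by
      filter_upwards [hgl.eventually (lt_mem_nhds (show C0 * ‖zb - xt‖ - η / 2 < C0 * ‖zb - xt‖
        by linarith))] with k hk
      have e1 := hp2 (χ k)
      have e2 := apply_le_mul (hT0 _ (hpρ _ _ (hp1 (χ k)))) (zb - xt)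
      have e3 := apply_le_mul hg1 (p (χ k) - xs (p (χ k)))
      have e4 := mul_le_mul_of_nonneg_left e3 hC0pos
      simp only [map_sub] at e1 e2 ⊢
      linarith
    have hlim := (hpm (fun k => xs (p (χ k))) xt (fun k => ys (p (χ k))) hxt
      (fun k => hys _) ⟨C, fun k => hysC _⟩
      (fun ε hε => hev.mono fun k hk => by linarith)).2
    have h3 := le_of_tendsto hlim hev
    linarith
  -- Stage 1
  obtain ⟨bb, hbb, hbbC⟩ : ∃ bb ∈ T zb, ‖bb‖ ≤ C' := by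
    obtain ⟨a, b, hb, hbC, hbm, -⟩ := exists_decomp hrefl T hmon hmax x0 y0 h0 C' (by linarith) zb
    have hm : ‖zb - a‖ ≤ 0 := by
      refine le_of_forall_pos_le_add fun η hη => ?_
      have hl : Tendsto (fun j : ℕ => η + (-ζ j a + (C + C0 + C') * (1 / ((j : ℝ) + 1)) -
          (b (z j) - b zb))) atTop (𝓝 (η + (-0 + (C + C0 + C') * 0 - (b zb - b zb)))) :=
        tendsto_const_nhds.add ((((hζ0 a).neg).add (hθ.const_mul _)).sub
          ((hz b).sub tendsto_const_nhds))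
      simp only [neg_zero, mul_zero, add_zero, sub_self] at hl
      rw [zero_add]
      refine ge_of_tendsto hl ?_
      filter_upwards [claim1 η hη] with j hj
      obtain ⟨p, hp, hpv⟩ := hζp j (z j - a)
      have hp1 := hpρ j p hp
      have e1 := hlow p hp1 a b hb
      have e2 := hj p hp
      have e3 := apply_le_mul (hrM p hp1) (p - z j)
      have e4 := neg_mul_le_apply hbC (p - z j)
      have e5 := apply_le_mul hbC (p - xs p)
      have e6 := neg_mul_le_apply (hT0 p hp1) (zb - a)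
      have e7 := mul_le_mul_of_nonneg_left hp.le (show 0 ≤ C + C0 + C' by linarith)
      have e8 := hζz j
      have hn := norm_nonneg (p - xs p)
      have hn2 := norm_nonneg (zb - a)
      have e9 : 0 ≤ (C - 2 * C0 - C') * ‖p - xs p‖ := mul_nonneg (by linarith) hn
      have e10 : 0 ≤ 3 * ‖y0‖ * ‖zb - a‖ := by positivity
      simp only [map_sub] at e1 e2 e3 e4 e5 e6 hpv hbm
      nlinarith
    have : a = zb := (sub_eq_zero.mp (norm_le_zero_iff.mp hm)).symm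
    exact ⟨b, this ▸ hb, hbC⟩
  -- Stage 2
  refine ⟨zb, hmax _ _ fun a b hb => ?_⟩
  set B := 1 + (C + C0) * (ρ + 1 + ‖a‖) with hB
  have hsel : ∀ k : ℕ, ∀ᶠ j in atTop, ∃ p : X, ‖p - z j‖ < 1 / ((j : ℝ) + 1) ∧
      ‖p - xs p‖ ≤ (B + 1) * (1 / ((k : ℝ) + 1)) ∧
      T0 (xs p) (xs p - zb) ≤ (B + 1) * (1 / ((k : ℝ) + 1)) ∧
      r p (p - a) ≤ 2 * (1 / ((k : ℝ) + 1)) := by
    intro k
    set θ : ℝ := 1 / ((k : ℝ) + 1) with hθk
    have hθpos : 0 < θ := Nat.one_div_pos_of_nat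
    have hθle : θ ≤ 1 := hθ1 k
    have hK : ((k : ℝ) + 1) * θ = 1 := by rw [hθk]; field_simp
    have hKpos : (0 : ℝ) < (k : ℝ) + 1 := by positivity
    have l1 : Tendsto (fun j : ℕ => -ζ j a - ((k : ℝ) + 1) * ζ j zb +
        ((k : ℝ) + 2) * (C + C0) * (1 / ((j : ℝ) + 1))) atTop
        (𝓝 (-0 - ((k : ℝ) + 1) * 0 + ((k : ℝ) + 2) * (C + C0) * 0)) :=
      (((hζ0 a).neg).sub ((hζ0 zb).const_mul _)).add (hθ.const_mul _)
    have l2 : Tendsto (fun j : ℕ => bb (z j) - bb zb - C' * (1 / ((j : ℝ) + 1))) atTop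
        (𝓝 (bb zb - bb zb - C' * 0)) :=
      ((hz bb).sub tendsto_const_nhds).sub (hθ.const_mul _)
    simp only [neg_zero, mul_zero, add_zero, sub_self] at l1 l2
    filter_upwards [claim1 (θ ^ 2 / 2) (by positivity), l1.eventually (gt_mem_nhds hθpos),
      l2.eventually (lt_mem_nhds (show -(θ ^ 2 / 2) < 0 by
        have : 0 < θ ^ 2 / 2 := by positivity
        linarith))] with j hj1 hj2 hj3
    obtain ⟨p, hp, hpv⟩ := hζp j ((z j - a) + ((k : ℝ) + 1) • (z j - zb))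
    have hp1 := hpρ j p hp
    have hn := norm_nonneg (p - xs p)
    have e1 := hlow p hp1 zb bb hbb
    have e2 := hj1 p hp
    have e3 := apply_le_mul (hrM p hp1) (p - z j)
    have e4 := neg_mul_le_apply hbbC (p - z j)
    have e5 := apply_le_mul hbbC (p - xs p)
    have e7 := mul_le_mul_of_nonneg_left hp.le (show 0 ≤ C + C0 by linarith)
    have e7' := mul_le_mul_of_nonneg_left hp.le (show 0 ≤ C' by linarith)
    have e8 := hζz j
    have e9 : ‖p - xs p‖ ≤ (C - 2 * C0 - C') * ‖p - xs p‖ :=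
      le_mul_of_one_le_left hn (by linarith)
    have e10 := neg_mul_le_apply (hrM p hp1) (p - a)
    have e11 : ‖p - a‖ ≤ ρ + 1 + ‖a‖ := (norm_sub_le _ _).trans (by linarith)
    have e12 := mul_le_mul_of_nonneg_left e11 (show 0 ≤ C + C0 by linarith)
    -- the two key quantities
    set d := r p (p - zb) with hd
    set e := r p (p - a) with he
    have hsum : e + ((k : ℝ) + 1) * d ≤ θ := by
      have f1 : e + ((k : ℝ) + 1) * d = r p ((z j - a) + ((k : ℝ) + 1) • (z j - zb)) +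
          ((k : ℝ) + 2) * r p (p - z j) := by
        simp only [hd, he, map_add, map_smul, map_sub, smul_eq_mul]
        ring
      have f2 : ζ j ((z j - a) + ((k : ℝ) + 1) • (z j - zb)) =
          -ζ j a - ((k : ℝ) + 1) * ζ j zb := by
        simp only [map_add, map_smul, map_sub, smul_eq_mul, e8]
        ring
      have f3 := mul_le_mul_of_nonneg_left (e3.trans e7) (show (0 : ℝ) ≤ (k : ℝ) + 2 by positivity)
      rw [f1]
      rw [f2] at hpv
      linarith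
    have hbp : -(θ ^ 2 / 2) - C' * ‖p - xs p‖ ≤ bb (xs p - zb) := by
      simp only [map_sub] at e4 e5 ⊢
      linarith
    have hd1 : -θ ^ 2 + ‖p - xs p‖ ≤ d := by linarith
    have hd2 : d ≤ B * θ := by
      have f1 : ((k : ℝ) + 1) * d ≤ B := by linarith
      have f2 := mul_le_mul_of_nonneg_left f1 hθpos.le
      have f3 : θ * (((k : ℝ) + 1) * d) = d := by rw [← mul_assoc, mul_comm θ, hK, one_mul]
      linarith
    have hθ2 : θ ^ 2 ≤ θ := by nlinarith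
    refine ⟨p, hp, by linarith, ?_, ?_⟩
    · have : 0 ≤ C0 * ‖p - xs p‖ := by positivity
      linarith
    · have f1 : -θ ≤ ((k : ℝ) + 1) * d := by
        have f2 := mul_le_mul_of_nonneg_left (show -θ ^ 2 ≤ d by linarith) hKpos.le
        have f3 : ((k : ℝ) + 1) * -θ ^ 2 = -θ := by
          rw [mul_neg, pow_two, ← mul_assoc, hK, one_mul]
        linarith
      linarith
  obtain ⟨φ, hφ, hφp⟩ := extraction_forall_of_eventually hsel
  choose p hp1 hp2 hp3 hp4 using hφp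
  have hpw : ∀ f : X →L[ℝ] ℝ, Tendsto (fun k => f (p k)) atTop (𝓝 (f zb)) :=
    weak_of_close (z := fun k => z (φ k)) (fun f => (hz f).comp hφ.tendsto_atTop)
      (tendsto_theta hφ) (fun k => (hp1 k).le)
  have hBθ : Tendsto (fun k : ℕ => (B + 1) * (1 / ((k : ℝ) + 1))) atTop (𝓝 0) := by
    simpa using hθ.const_mul (B + 1)
  have hxw : ∀ f : X →L[ℝ] ℝ, Tendsto (fun k => f (xs (p k))) atTop (𝓝 (f zb)) :=
    weak_of_close hpw hBθ (fun k => by rw [norm_sub_rev]; exact hp2 k)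
  obtain ⟨hl1, hl2⟩ := hpm (fun k => xs (p k)) zb (fun k => ys (p k)) hxw
    (fun k => hys _) ⟨C, fun k => hysC _⟩
    (fun ε hε => (hBθ.eventually (gt_mem_nhds hε)).mono fun k hk => (hp3 k).trans hk.le)
  have l1 : Tendsto (fun k => (b (xs (p k)) - b a) + (T0 (xs (p k)) (xs (p k) - zb) +
      T0 (xs (p k)) (zb - a))) atTop (𝓝 ((b zb - b a) + (0 + T0 zb (zb - a)))) :=
    ((hxw b).sub tendsto_const_nhds).add (hl2.add (hl1 _))
  have l2 : Tendsto (fun k : ℕ => 2 * (1 / ((k : ℝ) + 1))) atTop (𝓝 0) := by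
    simpa using hθ.const_mul 2
  have hfin := le_of_tendsto_of_tendsto' l1 l2 fun k => by
    have e1 := hlow (p k) (hpρ _ _ (hp1 k)) a b hb
    have e2 := hp4 k
    have e3 : 0 ≤ (C - C0) * ‖p k - xs (p k)‖ := mul_nonneg (by linarith) (norm_nonneg _)
    simp only [map_sub] at e1 e2 ⊢
    linarith
  simp only [sub_apply, neg_apply, map_sub] at hfin ⊢
  linarith

theorem main
    (hrefl : ∀ φ : (X →L[ℝ] ℝ) →L[ℝ] ℝ, ∃ x : X, ∀ f : X →L[ℝ] ℝ, φ f = f x)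
    (T : X → Set (X →L[ℝ] ℝ)) (T0 : X → (X →L[ℝ] ℝ))
    (hmon : ∀ x y : X, ∀ f ∈ T x, ∀ g ∈ T y, 0 ≤ (f - g) (x - y))
    (hmax : ∀ (x : X) (f : X →L[ℝ] ℝ),
      (∀ y : X, ∀ g ∈ T y, 0 ≤ (f - g) (x - y)) → f ∈ T x)
    (hbd : ∀ R : ℝ, ∃ M : ℝ, ∀ x : X, ‖x‖ ≤ R → ‖T0 x‖ ≤ M)
    (hpm : ∀ (u : ℕ → X) (v : X) (y : ℕ → (X →L[ℝ] ℝ)),
      (∀ f : X →L[ℝ] ℝ, Tendsto (fun j => f (u j)) atTop (𝓝 (f v))) →
      (∀ j, y j ∈ T (u j)) → (∃ C : ℝ, ∀ j, ‖y j‖ ≤ C) →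
      (∀ ε : ℝ, 0 < ε → ∀ᶠ j in atTop, (T0 (u j)) (u j - v) ≤ ε) →
      ((∀ φ : (X →L[ℝ] ℝ) →L[ℝ] ℝ,
          Tendsto (fun j => φ (T0 (u j))) atTop (𝓝 (φ (T0 v)))) ∧
        Tendsto (fun j => (T0 (u j)) (u j - v)) atTop (𝓝 0)))
    (hco : ∀ M : ℝ, ∃ R : ℝ, ∀ x : X, ∀ y ∈ T x, R ≤ ‖x‖ → M * ‖x‖ ≤ (y + T0 x) x)
    (f : X →L[ℝ] ℝ) : ∃ x : X, ∃ y ∈ T x, y + T0 x = f := by
  obtain ⟨R, hR⟩ := hco (1 + ‖f‖)
  obtain ⟨x, hx⟩ := exists_zero hrefl T (fun x => T0 x - f) hmon hmax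
    (fun R => by
      obtain ⟨M, hM⟩ := hbd R
      exact ⟨M + ‖f‖, fun x hx => (norm_sub_le _ _).trans (by linarith [hM x hx])⟩)
    (fun u v y hu hy hC hε => by
      have hf : Tendsto (fun j => f (u j - v)) atTop (𝓝 0) := by
        simp only [map_sub]
        simpa using (hu f).sub (tendsto_const_nhds (x := f v))
      obtain ⟨h1, h2⟩ := hpm u v y hu hy hC fun ε hε0 => by
        filter_upwards [hε (ε / 2) (by positivity),
          hf.eventually (gt_mem_nhds (show 0 < ε / 2 by positivity))] with j hj1 hj2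
        simp only [sub_apply] at hj1
        linarith
      refine ⟨fun w => ?_, ?_⟩
      · simp only [sub_apply]
        exact (h1 (ContinuousLinearMap.apply ℝ ℝ w)).sub tendsto_const_nhds
      · simp only [sub_apply]
        simpa using h2.sub hf)
    R (fun x y hy hx => by
      have e1 := hR x y hy hx
      have e2 := apply_le_norm_mul f x
      simp only [add_apply, sub_apply] at e1 ⊢
      linarith)
  exact ⟨x, _, hx, by abel⟩

end Pool.Agent.P.MP_438bde_an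
end
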